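import Pool.Agent.Q295.PL.Stm2

/-!
# Project LC2 (helper295), job L2-BXP: Poincare inequality in a box
-/

set_option autoImplicit false

namespace Pool.Agent.Q285.L2

open Finset Q292.LC Q295.PL

/-- Cauchy-Schwarz along a path on a line -/
theorem line_path (G : ℕ → ℝ) {R s t : ℕ} (hs : s < R) (ht : t < R) :
    (G s - G t) ^ 2 ≤ R * ∑ j ∈ range R, (G j - G (j + 1)) ^ 2 := by
  have key : ∀ {s t : ℕ}, s ≤ t → t < R → |G s - G t| ≤ ∑ j ∈ range R, |G j - G (j + 1)| := by
    intro s t hst ht
    have h1 := dist_le_Ico_sum_dist G hst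
    simp only [Real.dist_eq] at h1
    refine h1.trans (sum_le_sum_of_subset_of_nonneg ?_ fun _ _ _ => abs_nonneg _)
    intro j hj
    rw [mem_Ico] at hj
    rw [mem_range]
    omega
  have h2 : |G s - G t| ≤ ∑ j ∈ range R, |G j - G (j + 1)| := by
    rcases le_total s t with h | h
    · exact key h ht
    · rw [abs_sub_comm]
      exact key h hs
  have h3 : (G s - G t) ^ 2 ≤ (∑ j ∈ range R, |G j - G (j + 1)|) ^ 2 := by
    rw [← sq_abs]
    exact pow_le_pow_left₀ (abs_nonneg _) h2 2
  have h4 := sq_sum_le_card_mul_sum_sq (s := range R) (f := fun j => |G j - G (j + 1)|)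
  rw [card_range] at h4
  refine h3.trans (h4.trans (le_of_eq ?_))
  congr 1
  exact sum_congr rfl fun j _ => sq_abs _

section torus

variable {d L : ℕ}

theorem val_nat {z : ZMod L} {j R : ℕ} (hj : j < R) (hR : R ≤ L) : (z + (j : ZMod L) - z).val = j := by
  rw [add_sub_cancel_left, ZMod.val_natCast, Nat.mod_eq_of_lt (by omega)]

variable [NeZero L]

theorem mem_box {z x : Fin d → ZMod L} {R : ℕ} : x ∈ box z R ↔ ∀ i, (x i - z i).val < R := by
  unfold Q292.LC.box
  rw [mem_filter]
  exact ⟨fun h => h.2, fun h => ⟨mem_univ _, h⟩⟩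

theorem val_add {z a : ZMod L} : z + (((a - z).val : ℕ) : ZMod L) = a := by
  rw [ZMod.natCast_val, ZMod.cast_id', id, add_sub_cancel]

theorem card_box_le (z : Fin d → ZMod L) (R : ℕ) : (box z R).card ≤ R ^ d := by
  have h1 : box z R ⊆ Fintype.piFinset fun i => univ.filter fun a : ZMod L => (a - z i).val < R := by
    intro x hx
    rw [mem_box] at hx
    rw [Fintype.mem_piFinset]
    intro i
    rw [mem_filter]
    exact ⟨mem_univ _, hx i⟩
  refine (card_le_card h1).trans ?_
  rw [Fintype.card_piFinset]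
  have h2 := prod_le_prod (s := (univ : Finset (Fin d)))
    (f := fun i => (univ.filter fun a : ZMod L => (a - z i).val < R).card) (g := fun _ => R)
    (fun _ _ => Nat.zero_le _) ?_
  · rwa [prod_const, card_univ, Fintype.card_fin] at h2
  · intro i _
    have h3 : ((univ.filter fun a : ZMod L => (a - z i).val < R)).card ≤ (range R).card := by
      refine card_le_card_of_injOn (fun a => (a - z i).val) ?_ ?_
      · intro a ha
        rw [mem_coe, mem_filter] at ha
        rw [mem_coe, mem_range]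
        exact ha.2
      · intro a _ b _ hab
        have h4 : a - z i = b - z i := ZMod.val_injective L hab
        exact sub_left_inj.1 h4
    rwa [card_range] at h3

/-- moving a point of a line of the box -/
theorem line_sum (z : Fin d → ZMod L) {R : ℕ} (hR : R ≤ L) (k : Fin d)
    (φ : (Fin d → ZMod L) → ℝ) (hφ : ∀ p, 0 ≤ φ p) :
    ∑ x ∈ box z R, ∑ j ∈ range R, φ (Function.update x k (z k + (j : ZMod L))) ≤
      R * ∑ p, φ p := by
  rw [← sum_product' (box z R) (range R) fun x j => φ (Function.update x k (z k + (j : ZMod L)))]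
  have h1 : ∑ q ∈ box z R ×ˢ range R, φ (Function.update q.1 k (z k + (q.2 : ZMod L))) =
      ∑ q ∈ box z R ×ˢ range R, φ q.1 := by
    refine sum_nbij' (fun q => (Function.update q.1 k (z k + (q.2 : ZMod L)), (q.1 k - z k).val))
      (fun q => (Function.update q.1 k (z k + (q.2 : ZMod L)), (q.1 k - z k).val)) ?_ ?_ ?_ ?_ ?_
    · rintro ⟨x, j⟩ hq
      rw [mem_product, mem_box, mem_range] at hq
      rw [mem_product, mem_box, mem_range]
      refine ⟨fun i => ?_, hq.1 k⟩
      by_cases hi : i = k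
      · rw [hi]
        simp only [Function.update_self]
        rw [val_nat hq.2 hR]
        exact hq.2
      · simp only [Function.update_of_ne hi]
        exact hq.1 i
    · rintro ⟨x, j⟩ hq
      rw [mem_product, mem_box, mem_range] at hq
      rw [mem_product, mem_box, mem_range]
      refine ⟨fun i => ?_, hq.1 k⟩
      by_cases hi : i = k
      · rw [hi]
        simp only [Function.update_self]
        rw [val_nat hq.2 hR]
        exact hq.2
      · simp only [Function.update_of_ne hi]
        exact hq.1 i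
    · rintro ⟨x, j⟩ hq
      rw [mem_product, mem_box, mem_range] at hq
      simp only [Function.update_self, Function.update_idem, val_add, Function.update_eq_self]
      rw [val_nat hq.2 hR]
    · rintro ⟨x, j⟩ hq
      rw [mem_product, mem_box, mem_range] at hq
      simp only [Function.update_self, Function.update_idem, val_add, Function.update_eq_self]
      rw [val_nat hq.2 hR]
    · rintro ⟨x, j⟩ _
      rfl
  rw [h1, sum_product]
  have h2 : ∑ x ∈ box z R, ∑ _j ∈ range R, φ x = R * ∑ x ∈ box z R, φ x := by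
    rw [mul_sum]
    refine sum_congr rfl fun x _ => ?_
    rw [sum_const, card_range, nsmul_eq_mul]
  rw [h2]
  refine mul_le_mul_of_nonneg_left ?_ (Nat.cast_nonneg _)
  exact sum_le_sum_of_subset_of_nonneg (subset_univ _) fun p _ _ => hφ p

/-- the first `k` coordinates of `y`, the others of `x` -/
def hyb (k : ℕ) (x y : Fin d → ZMod L) : Fin d → ZMod L := fun i => if i.val < k then y i else x i

theorem hyb_mem {z x y : Fin d → ZMod L} {R : ℕ} (hx : x ∈ box z R) (hy : y ∈ box z R) (k : ℕ) :
    hyb k x y ∈ box z R := by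
  rw [mem_box] at hx hy ⊢
  intro i
  unfold hyb
  split_ifs
  · exact hy i
  · exact hx i

omit [NeZero L] in
theorem hyb_succ (k : Fin d) (x y : Fin d → ZMod L) :
    hyb (k.val + 1) x y = Function.update (hyb k.val x y) k (y k) := by
  funext i
  by_cases hi : i = k
  · rw [hi, Function.update_self]
    unfold hyb
    rw [if_pos (Nat.lt_succ_self _)]
  · rw [Function.update_of_ne hi]
    unfold hyb
    have h1 : i.val ≠ k.val := fun h => hi (Fin.ext h)
    by_cases h2 : i.val < k.val
    · rw [if_pos h2, if_pos (by omega)]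
    · rw [if_neg h2, if_neg (by omega)]

/-- exchanging coordinates of pairs -/
theorem hyb_sum (z : Fin d → ZMod L) (R k : ℕ) (ψ : (Fin d → ZMod L) → ℝ) :
    ∑ x ∈ box z R, ∑ y ∈ box z R, ψ (hyb k x y) = (box z R).card * ∑ x ∈ box z R, ψ x := by
  rw [← sum_product' (box z R) (box z R) fun x y => ψ (hyb k x y)]
  have h1 : ∑ q ∈ box z R ×ˢ box z R, ψ (hyb k q.1 q.2) = ∑ q ∈ box z R ×ˢ box z R, ψ q.1 := by
    have hh : ∀ x y : Fin d → ZMod L, hyb k (hyb k x y) (hyb k y x) = x := by
      intro x y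
      funext i
      unfold hyb
      split_ifs <;> rfl
    refine sum_nbij' (fun q => (hyb k q.1 q.2, hyb k q.2 q.1))
      (fun q => (hyb k q.1 q.2, hyb k q.2 q.1)) ?_ ?_ ?_ ?_ ?_
    · rintro ⟨x, y⟩ hq
      rw [mem_product] at hq ⊢
      exact ⟨hyb_mem hq.1 hq.2 k, hyb_mem hq.2 hq.1 k⟩
    · rintro ⟨x, y⟩ hq
      rw [mem_product] at hq ⊢
      exact ⟨hyb_mem hq.1 hq.2 k, hyb_mem hq.2 hq.1 k⟩
    · rintro ⟨x, y⟩ _
      exact Prod.ext (hh x y) (hh y x)
    · rintro ⟨x, y⟩ _
      exact Prod.ext (hh x y) (hh y x)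
    · rintro ⟨x, y⟩ _
      rfl
  rw [h1, sum_product, mul_sum]
  refine sum_congr rfl fun x _ => ?_
  show ∑ _y ∈ box z R, ψ x = _
  rw [sum_const, nsmul_eq_mul]

theorem bxp : S_BXP := by
  intro d L _ _ _ z R _ hR g
  obtain ⟨φ, hφ⟩ : ∃ φ : Fin d → (Fin d → ZMod L) → ℝ, φ = fun k p =>
      (g p - g (Function.update p k (p k + 1))) ^ 2 := ⟨_, rfl⟩
  have hφ0 : ∀ k p, 0 ≤ φ k p := fun k p => by
    rw [hφ]
    exact sq_nonneg _
  obtain ⟨ψ, hψ⟩ : ∃ ψ : Fin d → (Fin d → ZMod L) → ℝ, ψ = fun k p =>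
      ∑ j ∈ range R, φ k (Function.update p k (z k + (j : ZMod L))) := ⟨_, rfl⟩
  have hψ0 : ∀ k p, 0 ≤ ψ k p := fun k p => by
    rw [hψ]
    exact sum_nonneg fun j _ => hφ0 k _
  -- one coordinate
  have hone : ∀ (k : Fin d) (p : Fin d → ZMod L) (a : ZMod L), p ∈ box z R → (a - z k).val < R →
      (g p - g (Function.update p k a)) ^ 2 ≤ R * ψ k p := by
    intro k p a hp ha
    rw [mem_box] at hp
    have h1 := line_path (fun j => g (Function.update p k (z k + (j : ZMod L)))) (hp k) ha
    rw [val_add, val_add, Function.update_eq_self] at h1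
    refine h1.trans (le_of_eq ?_)
    rw [hψ, hφ]
    simp only
    congr 1
    refine sum_congr rfl fun j _ => ?_
    rw [Function.update_self, Function.update_idem]
    push_cast
    rw [add_assoc]
  have hpair : ∀ x ∈ box z R, ∀ y ∈ box z R,
      (g x - g y) ^ 2 ≤ d * ∑ k : Fin d, R * ψ k (hyb k.val x y) := by
    intro x hx y hy
    have h0 : hyb 0 x y = x := by
      funext i
      unfold hyb
      rw [if_neg (Nat.not_lt_zero _)]
    have h1 : hyb d x y = y := by
      funext i
      unfold hyb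
      rw [if_pos i.isLt]
    have h2 : g x - g y = ∑ k : Fin d, (g (hyb k.val x y) - g (hyb (k.val + 1) x y)) := by
      rw [Fin.sum_univ_eq_sum_range (fun k => g (hyb k x y) - g (hyb (k + 1) x y)) d]
      rw [sum_range_sub', h0, h1]
    rw [h2]
    have h3 := sq_sum_le_card_mul_sum_sq (s := (univ : Finset (Fin d)))
      (f := fun k => g (hyb k.val x y) - g (hyb (k.val + 1) x y))
    rw [card_univ, Fintype.card_fin] at h3
    refine h3.trans (mul_le_mul_of_nonneg_left ?_ (Nat.cast_nonneg _))
    refine sum_le_sum fun k _ => ?_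
    rw [hyb_succ]
    exact hone k _ _ (hyb_mem hx hy _) ((mem_box.1 hy) k)
  have hbox : ((box z R).card : ℝ) ≤ (R : ℝ) ^ d := by exact_mod_cast card_box_le z R
  calc ∑ x ∈ box z R, ∑ y ∈ box z R, (g x - g y) ^ 2
      ≤ ∑ x ∈ box z R, ∑ y ∈ box z R, d * ∑ k : Fin d, R * ψ k (hyb k.val x y) :=
        sum_le_sum fun x hx => sum_le_sum fun y hy => hpair x hx y hy
    _ = d * ∑ k : Fin d, R * ∑ x ∈ box z R, ∑ y ∈ box z R, ψ k (hyb k.val x y) := by
        have h6 : ∑ x ∈ box z R, ∑ y ∈ box z R, ∑ k : Fin d, (R : ℝ) * ψ k (hyb k.val x y) =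
            ∑ k : Fin d, ∑ x ∈ box z R, ∑ y ∈ box z R, (R : ℝ) * ψ k (hyb k.val x y) :=
          (sum_congr rfl fun x _ => sum_comm).trans sum_comm
        simp only [← mul_sum] at h6 ⊢
        rw [h6]
    _ = d * ∑ k : Fin d, R * ((box z R).card * ∑ x ∈ box z R, ψ k x) := by
        congr 1
        refine sum_congr rfl fun k _ => ?_
        rw [hyb_sum]
    _ ≤ d * ∑ k : Fin d, R * ((R : ℝ) ^ d * (R * ∑ p, φ k p)) := by
        refine mul_le_mul_of_nonneg_left (sum_le_sum fun k _ => ?_) (Nat.cast_nonneg _)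
        refine mul_le_mul_of_nonneg_left ?_ (Nat.cast_nonneg _)
        refine mul_le_mul hbox ?_ (sum_nonneg fun x _ => hψ0 k x) (by positivity)
        rw [hψ]
        exact line_sum z hR k (φ k) (hφ0 k)
    _ = d * (R : ℝ) ^ (d + 2) * gE g := by
        have h5 : gE g = ∑ k : Fin d, ∑ p, φ k p := by
          unfold gE
          rw [Fintype.sum_prod_type_right, hφ]
          rfl
        rw [h5, mul_sum, mul_sum]
        refine sum_congr rfl fun k _ => ?_
        ring

end torus

end Pool.Agent.Q285.L2
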