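import Pool.Agent.Q295.PL.Stm2
import Pool.Agent.Q277.LC.Kha

/-!
# Project LC2 (helper295), job L2-OMT: all particles are regular with large probability
-/

set_option autoImplicit false

namespace Pool.Agent.Q285.L2

open Finset Equiv Matrix Q292.LC
open Pool.Agent.Q68.LC (EE_congr EE_const EE_add EE_smul EE_mono EE_succ)
open Pool.Agent.Q277.LC (EE_sum)

theorem omt (hJ : Q292.LC.S_JMP) (hK : Q295.PL.S_KHT) : Q295.PL.S_OMT := by
  classical
  intro d hd
  obtain ⟨CJ, hJ1, hJ2⟩ := hJ d (by omega)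
  obtain ⟨CK, hK1, hK2⟩ := hK d hd
  refine ⟨max ⌈CJ⌉₊ CK, le_trans hK1 (le_max_right _ _), ?_⟩
  intro L _ hL K hKL ρ κ₀
  obtain ⟨q₀, hq₀⟩ := hK2 L hL K hKL
  obtain ⟨W, hW⟩ : ∃ W : ℕ, W = 1 + Nat.log 2 K := ⟨_, rfl⟩
  have hW1 : 1 ≤ W := by omega
  rw [← hW] at hq₀ ⊢
  have hCW : 1 ≤ CK * W := Nat.mul_pos hK1 hW1
  refine ⟨max (max q₀ 2) ⌈2 * CJ⌉₊, ?_⟩
  intro q hq σ hσ δ hδ1 hδ2
  have hqq : q₀ ≤ q := le_trans (le_trans (le_max_left _ _) (le_max_left _ _)) hq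
  have hq2 : 2 ≤ q := le_trans (le_trans (le_max_right _ _) (le_max_left _ _)) hq
  have hqJ : 2 * CJ ≤ q := le_trans (Nat.le_ceil _)
    (by exact_mod_cast le_trans (le_max_right _ _) hq)
  have hqR : (2 : ℝ) ≤ q := by exact_mod_cast hq2
  have hδ0 : 0 < δ := by
    by_contra h
    push Not at h
    have : δ * q ≤ 0 := mul_nonpos_of_nonpos_of_nonneg h (by linarith)
    linarith
  have hδle : δ ≤ 1 := by nlinarith
  have hCδ : CJ * δ ≤ 1 := by nlinarith
  have hLR : (1 : ℝ) ≤ L := by exact_mod_cast (by omega : 1 ≤ L)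
  have hcard : (Fintype.card (Fin d → ZMod L) : ℝ) = (L : ℝ) ^ d := by
    rw [Fintype.card_fun, Fintype.card_fin, ZMod.card]
    push_cast
    rfl
  have hkd : ∀ ω : ℕ → Bool, (if Om σ q K ρ κ₀ ω then (0 : ℝ) else 1) ≤
      (∑ j ∈ Finset.range K, ∑ x : Fin d → ZMod L,
        if ρ < jumps (ed ∘ σ) ω (j * (q * ms d L)) ((j + 1) * (q * ms d L)) x then (1 : ℝ) else 0) +
      ∑ p : (Fin d → ZMod L) × (Fin d → ZMod L), if p.1 ≠ p.2 then
        (if CK * W * (κ₀ / (CK * W)) * q < clo σ (K * q) ω p.1 p.2 then (1 : ℝ) else 0) else 0 := by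
    intro ω
    have hn1 : 0 ≤ ∑ j ∈ Finset.range K, ∑ x : Fin d → ZMod L,
        (if ρ < jumps (ed ∘ σ) ω (j * (q * ms d L)) ((j + 1) * (q * ms d L)) x then (1 : ℝ)
          else 0) := by
      refine Finset.sum_nonneg fun j _ => Finset.sum_nonneg fun x _ => ?_
      split_ifs <;> norm_num
    have hn2 : 0 ≤ ∑ p : (Fin d → ZMod L) × (Fin d → ZMod L), (if p.1 ≠ p.2 then
        (if CK * W * (κ₀ / (CK * W)) * q < clo σ (K * q) ω p.1 p.2 then (1 : ℝ) else 0) else 0) := by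
      refine Finset.sum_nonneg fun p _ => ?_
      split_ifs <;> norm_num
    split_ifs with hOm
    · linarith
    unfold Om at hOm
    rw [not_and_or] at hOm
    rcases hOm with h | h
    · push Not at h
      obtain ⟨j, hj, a, ha⟩ := h
      have h1 : (1 : ℝ) ≤ ∑ j ∈ Finset.range K, ∑ x : Fin d → ZMod L,
          (if ρ < jumps (ed ∘ σ) ω (j * (q * ms d L)) ((j + 1) * (q * ms d L)) x then (1 : ℝ)
            else 0) := by
        have h2 : ∑ x : Fin d → ZMod L,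
          (if ρ < jumps (ed ∘ σ) ω (j * (q * ms d L)) ((j + 1) * (q * ms d L)) x then (1 : ℝ)
            else 0) ≤ ∑ j ∈ Finset.range K, ∑ x : Fin d → ZMod L,
          (if ρ < jumps (ed ∘ σ) ω (j * (q * ms d L)) ((j + 1) * (q * ms d L)) x then (1 : ℝ)
            else 0) := by
          refine Finset.single_le_sum (f := fun j => ∑ x : Fin d → ZMod L,
            (if ρ < jumps (ed ∘ σ) ω (j * (q * ms d L)) ((j + 1) * (q * ms d L)) x then (1 : ℝ)
            else 0)) (fun j _ => Finset.sum_nonneg fun x _ => by split_ifs <;> norm_num)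
            (Finset.mem_range.2 hj)
        refine le_trans ?_ h2
        have h3 : (if ρ < jumps (ed ∘ σ) ω (j * (q * ms d L)) ((j + 1) * (q * ms d L)) a then
          (1 : ℝ) else 0) ≤ ∑ x : Fin d → ZMod L,
          (if ρ < jumps (ed ∘ σ) ω (j * (q * ms d L)) ((j + 1) * (q * ms d L)) x then (1 : ℝ)
            else 0) := by
          refine Finset.single_le_sum (f := fun x =>
            (if ρ < jumps (ed ∘ σ) ω (j * (q * ms d L)) ((j + 1) * (q * ms d L)) x then (1 : ℝ)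
            else 0)) (fun x _ => by split_ifs <;> norm_num) (Finset.mem_univ a)
        rw [if_pos ha] at h3
        exact h3
      linarith
    · push Not at h
      obtain ⟨a, b, hab, hc⟩ := h
      have h3 : (if a ≠ b then
        (if CK * W * (κ₀ / (CK * W)) * q < clo σ (K * q) ω a b then (1 : ℝ) else 0) else 0) ≤
          ∑ p : (Fin d → ZMod L) × (Fin d → ZMod L), (if p.1 ≠ p.2 then
        (if CK * W * (κ₀ / (CK * W)) * q < clo σ (K * q) ω p.1 p.2 then (1 : ℝ) else 0) else 0) := by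
        refine Finset.single_le_sum (f := fun p : (Fin d → ZMod L) × (Fin d → ZMod L) =>
          (if p.1 ≠ p.2 then
        (if CK * W * (κ₀ / (CK * W)) * q < clo σ (K * q) ω p.1 p.2 then (1 : ℝ) else 0) else 0))
          (fun p _ => by split_ifs <;> norm_num) (Finset.mem_univ (a, b))
      have h4 : CK * W * (κ₀ / (CK * W)) * q < clo σ (K * q) ω a b := by
        refine lt_of_le_of_lt ?_ hc
        exact Nat.mul_le_mul_right _ (Nat.mul_div_le _ _)
      rw [if_pos hab, if_pos h4] at h3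
      linarith
  have hE : EE (K * (q * ms d L)) δ (fun ω => if Om σ q K ρ κ₀ ω then (0 : ℝ) else 1) ≤
      (∑ j ∈ Finset.range K, ∑ x : Fin d → ZMod L, CJ * Real.exp (-(ρ : ℝ))) +
      ∑ p : (Fin d → ZMod L) × (Fin d → ZMod L), (1 / 2 : ℝ) ^ (κ₀ / (CK * W)) := by
    refine le_trans (EE_mono hδ0.le hδle hkd) ?_
    rw [EE_add, EE_sum, EE_sum]
    refine add_le_add ?_ ?_
    · refine Finset.sum_le_sum fun j hj => ?_
      rw [EE_sum]
      refine Finset.sum_le_sum fun x _ => ?_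
      have := hJ2 L hL σ hσ q K j ρ δ x hδ0 hCδ hδ2 (Finset.mem_range.1 hj)
      convert this
    · refine Finset.sum_le_sum fun p _ => ?_
      by_cases hp : p.1 ≠ p.2
      · have := hq₀ q hqq σ hσ δ hδ1 hδ2 p.1 p.2 hp (κ₀ / (CK * W))
        simp only [if_pos hp]
        convert this
      · simp only [if_neg hp]
        rw [EE_const]
        positivity
  have hgoal : EE (K * (q * ms d L)) δ (fun ω => if Om σ q K ρ κ₀ ω then (0 : ℝ) else 1) ≤
      (max ⌈CJ⌉₊ CK : ℕ) * ((L : ℝ) ^ (2 * d) * Real.exp (-(ρ : ℝ)) +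
        (L : ℝ) ^ (2 * d) * (1 / 2) ^ (κ₀ / ((max ⌈CJ⌉₊ CK) * W))) := by
    refine le_trans hE ?_
    simp only [Finset.sum_const, Finset.card_univ, Finset.card_range, nsmul_eq_mul,
      Fintype.card_prod]
    push_cast
    rw [hcard]
    have hM1 : CJ ≤ (max (⌈CJ⌉₊ : ℝ) (CK : ℝ)) := le_trans (Nat.le_ceil _) (le_max_left _ _)
    have hM2 : (1 : ℝ) ≤ (max (⌈CJ⌉₊ : ℝ) (CK : ℝ)) :=
      le_trans (by exact_mod_cast hK1) (le_max_right _ _)
    have hKR : (K : ℝ) ≤ (L : ℝ) ^ d := by exact_mod_cast hKL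
    have h2d : (L : ℝ) ^ (2 * d) = (L : ℝ) ^ d * (L : ℝ) ^ d := by rw [two_mul, pow_add]
    have hLd : (0 : ℝ) ≤ (L : ℝ) ^ d := by positivity
    have t1 : (K : ℝ) * ((L : ℝ) ^ d * (CJ * Real.exp (-(ρ : ℝ)))) ≤
        max (⌈CJ⌉₊ : ℝ) (CK : ℝ) * ((L : ℝ) ^ (2 * d) * Real.exp (-(ρ : ℝ))) := by
      rw [h2d]
      have he : 0 ≤ Real.exp (-(ρ : ℝ)) := (Real.exp_pos _).le
      calc (K : ℝ) * ((L : ℝ) ^ d * (CJ * Real.exp (-(ρ : ℝ))))
          ≤ (L : ℝ) ^ d * ((L : ℝ) ^ d * (CJ * Real.exp (-(ρ : ℝ)))) := by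
            refine mul_le_mul_of_nonneg_right hKR (by positivity)
        _ = CJ * ((L : ℝ) ^ d * (L : ℝ) ^ d * Real.exp (-(ρ : ℝ))) := by ring
        _ ≤ _ := mul_le_mul_of_nonneg_right hM1 (by positivity)
    have t2 : (L : ℝ) ^ d * (L : ℝ) ^ d * (1 / 2) ^ (κ₀ / (CK * W)) ≤
        max (⌈CJ⌉₊ : ℝ) (CK : ℝ) * ((L : ℝ) ^ (2 * d) * (1 / 2) ^ (κ₀ / ((max ⌈CJ⌉₊ CK) * W))) := by
      rw [h2d]
      have hp : (1 / 2 : ℝ) ^ (κ₀ / (CK * W)) ≤ (1 / 2) ^ (κ₀ / ((max ⌈CJ⌉₊ CK) * W)) := by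
        refine pow_le_pow_of_le_one (by norm_num) (by norm_num) ?_
        exact Nat.div_le_div_left (Nat.mul_le_mul_right _ (le_max_right _ _)) (by omega)
      calc (L : ℝ) ^ d * (L : ℝ) ^ d * (1 / 2) ^ (κ₀ / (CK * W))
          ≤ (L : ℝ) ^ d * (L : ℝ) ^ d * (1 / 2) ^ (κ₀ / ((max ⌈CJ⌉₊ CK) * W)) :=
            mul_le_mul_of_nonneg_left hp (by positivity)
        _ ≤ _ := by
            refine le_mul_of_one_le_left (by positivity) hM2
    rw [mul_add]
    have t3 : ((L : ℝ) ^ d) * ((L : ℝ) ^ d) * (1 / 2) ^ (κ₀ / (CK * W)) =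
      ((L : ℝ) ^ d * (L : ℝ) ^ d) * (1 / 2) ^ (κ₀ / (CK * W)) := rfl
    linarith
  convert hgoal

end Pool.Agent.Q285.L2
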